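import Pool.Agent.Y922.AP.Stm

/-!
# Project AP: the algebraic lemma (helper730)

A sequence `z : ℤ → ℂ` whose relations over `K` are invariant under all shifts and under one step
`k₀ ↦ k₁` is algebraically independent.
-/

set_option autoImplicit false

open Set

namespace Pool.Agent.Y730.AP

open Pool.Agent.Y922.AP

variable {K : Subfield ℂ} {z : ℤ → ℂ}

/-- the kernel of the evaluation is invariant under shifts -/
def Sh (K : Subfield ℂ) (z : ℤ → ℂ) : Prop :=
  ∀ (M : ℤ) (P : MvPolynomial ℤ K), MvPolynomial.aeval z P = 0 →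
    MvPolynomial.aeval (fun k => z (k + M)) P = 0

theorem Sh.iff (hs : Sh K z) (M : ℤ) (P : MvPolynomial ℤ K) :
    MvPolynomial.aeval z P = 0 ↔ MvPolynomial.aeval (fun k => z (k + M)) P = 0 := by
  refine ⟨hs M P, fun h => ?_⟩
  have h1 : MvPolynomial.aeval z (MvPolynomial.rename (fun k : ℤ => k + M) P) = 0 := by
    rw [MvPolynomial.aeval_rename]; exact h
  have h2 := hs (-M) _ h1
  rw [MvPolynomial.aeval_rename] at h2
  have : ((fun k => z (k + -M)) ∘ fun k : ℤ => k + M) = z := by
    funext k; simp
  rwa [this] at h2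

/-- independence is invariant under shifts -/
theorem Sh.indep (hs : Sh K z) (M : ℤ) (s : Set ℤ) :
    AlgebraicIndepOn K z s ↔ AlgebraicIndepOn K (fun k => z (k + M)) s := by
  unfold AlgebraicIndepOn
  rw [algebraicIndependent_iff, algebraicIndependent_iff]
  refine forall_congr' fun P => ?_
  have e1 : MvPolynomial.aeval (fun i : s => z i) P =
      MvPolynomial.aeval z (MvPolynomial.rename (fun i : s => (i : ℤ)) P) := by
    rw [MvPolynomial.aeval_rename]; rfl
  have e2 : MvPolynomial.aeval (fun i : s => z ((i : ℤ) + M)) P =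
      MvPolynomial.aeval (fun k => z (k + M)) (MvPolynomial.rename (fun i : s => (i : ℤ)) P) := by
    rw [MvPolynomial.aeval_rename]; rfl
  rw [e1, e2, ← hs.iff M]

/-- a dependent family has an independent finite set and a larger index which depends on it -/
theorem exists_first (h : ¬ AlgebraicIndependent K z) :
    ∃ (t : Finset ℤ) (d : ℤ), (∀ i ∈ t, i < d) ∧ AlgebraicIndepOn K z (t : Set ℤ) ∧
      ¬ AlgebraicIndepOn K z (insert d (t : Set ℤ)) := by
  by_contra hc
  push Not at hc
  apply h
  have key : ∀ t : Finset ℤ, AlgebraicIndepOn K z (t : Set ℤ) := by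
    intro t
    induction t using Finset.induction_on_max with
    | empty =>
      simp only [Finset.coe_empty]
      have : IsEmpty ((∅ : Set ℤ) : Type) := by infer_instance
      unfold AlgebraicIndepOn
      rw [algebraicIndependent_empty_type_iff]
      exact (algebraMap K ℂ).injective
    | insert a s ha ih =>
      rw [Finset.coe_insert]
      exact hc s a ha ih
  refine algebraicIndependent_of_finite_type fun t ht => ?_
  have := key ht.toFinset
  rwa [Set.Finite.coe_toFinset] at this

/-- all elements from some index on are algebraic over finitely many -/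
theorem all_alg (hs : Sh K z) (h : ¬ AlgebraicIndependent K z) :
    ∃ (a d : ℤ), ∀ n : ℤ, a ≤ n →
      IsAlgebraic (Algebra.adjoin K (z '' Ico a d)) (z n) := by
  obtain ⟨t, d, htd, ht, hd⟩ := exists_first h
  have hnt : d ∉ (t : Set ℤ) := fun hd' => lt_irrefl _ (htd d (by exact_mod_cast hd'))
  have halg : ∀ M : ℤ, IsAlgebraic (Algebra.adjoin K ((fun k => z (k + M)) '' (t : Set ℤ)))
      (z (d + M)) := by
    intro M
    have h1 : AlgebraicIndepOn K (fun k => z (k + M)) (t : Set ℤ) := (hs.indep M _).1 ht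
    have h2 : ¬ AlgebraicIndepOn K (fun k => z (k + M)) (insert d (t : Set ℤ)) := fun h' =>
      hd ((hs.indep M _).2 h')
    by_contra hcon
    exact h2 ((AlgebraicIndepOn.insert_iff hnt).2 ⟨h1, hcon⟩)
  obtain ⟨a, had, hat⟩ : ∃ a : ℤ, a ≤ d ∧ ∀ i ∈ t, a ≤ i := by
    by_cases hte : t.Nonempty
    · refine ⟨t.min' hte, ?_, fun i hi => t.min'_le i hi⟩
      exact (htd _ (t.min'_mem hte)).le
    · rw [Finset.not_nonempty_iff_eq_empty] at hte
      exact ⟨d, le_rfl, by simp [hte]⟩
  refine ⟨a, d, ?_⟩
  have key : ∀ j : ℕ, ∀ n : ℤ, a ≤ n → n < a + j →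
      IsAlgebraic (Algebra.adjoin K (z '' Ico a d)) (z n) := by
    intro j
    induction j with
    | zero => intro n h1 h2; simp at h2; omega
    | succ j ih =>
      intro n h1 h2
      by_cases hn : n < d
      · exact isAlgebraic_algebraMap
          (⟨z n, Algebra.subset_adjoin ⟨n, ⟨h1, hn⟩, rfl⟩⟩ : Algebra.adjoin K (z '' Ico a d))
      · push Not at hn
        have h3 := halg (n - d)
        rw [show d + (n - d) = n by ring] at h3
        refine h3.adjoin_of_forall_isAlgebraic ?_
        rintro x ⟨⟨k, hk, rfl⟩, -⟩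
        have hk1 := hat k (by exact_mod_cast hk)
        have hk2 := htd k (by exact_mod_cast hk)
        refine ih (k + (n - d)) (by omega) ?_
        push_cast at h2
        omega
  intro n hn
  refine key (n - a + 1).toNat n hn ?_
  have : (0 : ℤ) ≤ n - a + 1 := by omega
  rw [Int.toNat_of_nonneg this]
  omega

/-- the value of a polynomial with coefficients in `K[z_k, k ∈ F]` at `X m` -/
noncomputable def toMv {F : Set ℤ} (p : Polynomial (MvPolynomial F K)) (m : ℤ) :
    MvPolynomial ℤ K :=
  Polynomial.eval₂ (MvPolynomial.rename (fun i : F => (i : ℤ)) : _ →ₐ[K] _).toRingHom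
    (MvPolynomial.X m) p

theorem toMv_vars {F : Set ℤ} (p : Polynomial (MvPolynomial F K)) (m : ℤ) :
    ∀ k ∈ (toMv p m).vars, k = m ∨ k ∈ F := by
  classical
  intro k hk
  have h1 : toMv p m ∈ MvPolynomial.supported K (insert m F : Set ℤ) := by
    unfold toMv
    rw [Polynomial.eval₂_eq_sum]
    refine Subalgebra.sum_mem _ fun i _ => ?_
    refine Subalgebra.mul_mem _ ?_ (Subalgebra.pow_mem _ ?_ _)
    · have : (MvPolynomial.rename (fun i : F => (i : ℤ)) : _ →ₐ[K] _) (p.coeff i) ∈
          MvPolynomial.supported K F := by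
        rw [MvPolynomial.supported_eq_range_rename]
        exact ⟨_, rfl⟩
      exact MvPolynomial.supported_mono (Set.subset_insert _ _) this
    · exact MvPolynomial.X_mem_supported.2 (Set.mem_insert _ _)
  rw [MvPolynomial.mem_supported] at h1
  have := h1 (by exact_mod_cast hk)
  simpa using this

theorem aeval_toMv {F : Set ℤ} (p : Polynomial (MvPolynomial F K)) (m : ℤ) (w : ℤ → ℂ) :
    MvPolynomial.aeval w (toMv p m) =
      Polynomial.eval₂ (MvPolynomial.aeval (fun i : F => w i) : _ →ₐ[K] ℂ).toRingHom (w m) p := by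
  unfold toMv
  have h1 : MvPolynomial.aeval w (Polynomial.eval₂
      (MvPolynomial.rename (fun i : F => (i : ℤ)) : _ →ₐ[K] _).toRingHom
      (MvPolynomial.X m) p) = (MvPolynomial.aeval w : _ →ₐ[K] ℂ).toRingHom (Polynomial.eval₂
      (MvPolynomial.rename (fun i : F => (i : ℤ)) : _ →ₐ[K] _).toRingHom
      (MvPolynomial.X m) p) := rfl
  rw [h1, Polynomial.hom_eval₂]
  congr 1
  · refine RingHom.ext fun q => ?_
    show MvPolynomial.aeval w (MvPolynomial.rename (fun i : F => (i : ℤ)) q) = _
    rw [MvPolynomial.aeval_rename]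
    rfl
  · show MvPolynomial.aeval w (MvPolynomial.X m) = _
    simp

theorem alg : S_ALG := by
  intro K z hz hs k₀ k₁ Bd hk hst
  by_contra hcon
  have hs' : Sh K z := hs
  obtain ⟨a, d, had⟩ := all_alg hs' hcon
  set F : Set ℤ := Ico a d with hF
  -- a lower bound of Bd
  obtain ⟨b, hb⟩ : ∃ b : ℤ, ∀ i ∈ Bd, b ≤ i := by
    by_cases hB : Bd.Nonempty
    · exact ⟨Bd.min' hB, fun i hi => Bd.min'_le i hi⟩
    · rw [Finset.not_nonempty_iff_eq_empty] at hB
      exact ⟨0, by simp [hB]⟩
  -- a large index
  obtain ⟨m, hm1, hm2, hm3⟩ : ∃ m : ℤ, a ≤ m ∧ d ≤ m ∧ d + (k₀ - m) ≤ b := by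
    refine ⟨max (max a d) (d + k₀ - b), ?_, ?_, ?_⟩
    · exact le_trans (le_max_left _ _) (le_max_left _ _)
    · exact le_trans (le_max_right _ _) (le_max_left _ _)
    · have := le_max_right (max a d) (d + k₀ - b)
      omega
  have halg := had m hm1
  obtain ⟨p, hp0, hpm⟩ := halg
  -- lift of p
  let f : MvPolynomial F K →ₐ[K] ℂ := MvPolynomial.aeval (fun i : F => z i)
  have hrange : ∀ c : ℂ, c ∈ Algebra.adjoin K (z '' F) → ∃ q : MvPolynomial F K, f q = c := by
    intro c h1
    rw [Set.image_eq_range, Algebra.adjoin_range_eq_range_aeval] at h1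
    obtain ⟨q, hq⟩ := h1
    exact ⟨q, hq⟩
  let g : MvPolynomial F K →+* Algebra.adjoin K (z '' F) :=
    f.toRingHom.codRestrict (Algebra.adjoin K (z '' F)) (fun q => by
      show f q ∈ Algebra.adjoin K (z '' F)
      rw [Set.image_eq_range, Algebra.adjoin_range_eq_range_aeval]
      exact ⟨q, rfl⟩)
  have hg : Function.Surjective g := by
    intro c
    obtain ⟨q, hq⟩ := hrange c c.2
    exact ⟨q, Subtype.ext hq⟩
  obtain ⟨p', hp'⟩ := Polynomial.map_surjective g hg p
  have hfg : f.toRingHom = (algebraMap (Algebra.adjoin K (z '' F)) ℂ).comp g := by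
    refine RingHom.ext fun q => rfl
  -- evaluation at `z m'`
  have hev : ∀ w : ℂ, Polynomial.eval₂ f.toRingHom w p' = Polynomial.aeval w p := by
    intro w
    rw [← hp', Polynomial.aeval_def, Polynomial.eval₂_map, hfg]
  -- the step
  have step : ∀ m' : ℤ, m ≤ m' → Polynomial.aeval (z m') p = 0 →
      Polynomial.aeval (z (m' + (k₁ - k₀))) p = 0 := by
    intro m' hm' h0
    have h1 : MvPolynomial.aeval z (toMv p' m') = 0 := by
      rw [aeval_toMv]
      exact (hev _).trans h0
    set P1 := MvPolynomial.rename (fun k : ℤ => k + (k₀ - m')) (toMv p' m') with hP1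
    have h2 : MvPolynomial.aeval z P1 = 0 := by
      rw [hP1, MvPolynomial.aeval_rename]
      exact hs _ _ h1
    have hv : ∀ k ∈ P1.vars, k = k₀ ∨ k ∉ Bd := by
      classical
      intro k hk
      have h3 := MvPolynomial.vars_rename (fun k : ℤ => k + (k₀ - m')) (toMv p' m') hk
      rw [Finset.mem_image] at h3
      obtain ⟨l, hl, rfl⟩ := h3
      rcases toMv_vars p' m' l hl with rfl | hl'
      · left; ring
      · right
        intro hB
        have h4 := hb _ hB
        have h5 := hl'.2
        omega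
    have h3 := hst P1 hv h2
    have h4 : MvPolynomial.aeval z (MvPolynomial.rename (fun k : ℤ => if k = k₀ then k₁ else k) P1)
        = 0 := by
      rw [MvPolynomial.aeval_rename]
      exact h3
    have h5 := hs (m' - k₀) _ h4
    rw [MvPolynomial.aeval_rename, hP1, MvPolynomial.aeval_rename, aeval_toMv] at h5
    have h6 : (fun i : F => (((fun k => z (k + (m' - k₀))) ∘ fun k : ℤ => if k = k₀ then k₁ else k) ∘
        fun k : ℤ => k + (k₀ - m')) (i : ℤ)) = fun i : F => z i := by
      funext i
      have hi : (i : ℤ) < d := i.2.2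
      have : ¬ ((i : ℤ) + (k₀ - m') = k₀) := by omega
      simp only [Function.comp, this, if_false]
      congr 1
      ring
    rw [h6] at h5
    have h7 : (((fun k => z (k + (m' - k₀))) ∘ fun k : ℤ => if k = k₀ then k₁ else k) ∘
        fun k : ℤ => k + (k₀ - m')) m' = z (m' + (k₁ - k₀)) := by
      have : m' + (k₀ - m') = k₀ := by ring
      simp only [Function.comp, this, if_true]
      congr 1
      ring
    rw [h7] at h5
    rw [← hev]
    exact h5
  have all : ∀ j : ℕ, Polynomial.aeval (z (m + j * (k₁ - k₀))) p = 0 := by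
    intro j
    induction j with
    | zero => simpa using hpm
    | succ j ih =>
      have := step (m + j * (k₁ - k₀)) (by
        have : 0 ≤ (j : ℤ) * (k₁ - k₀) := mul_nonneg (by positivity) (by omega)
        omega) ih
      rwa [show m + (j : ℤ) * (k₁ - k₀) + (k₁ - k₀) = m + ((j + 1 : ℕ) : ℤ) * (k₁ - k₀) by
        push_cast; ring] at this
  -- infinitely many roots
  have hinj : Function.Injective (algebraMap (Algebra.adjoin K (z '' F)) ℂ) :=
    Subtype.val_injective
  have hpc : p.map (algebraMap (Algebra.adjoin K (z '' F)) ℂ) ≠ 0 :=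
    (Polynomial.map_ne_zero_iff hinj).2 hp0
  apply hpc
  apply Polynomial.eq_zero_of_infinite_isRoot
  refine Set.Infinite.mono (s := Set.range fun j : ℕ => z (m + j * (k₁ - k₀))) ?_ ?_
  · rintro _ ⟨j, rfl⟩
    show Polynomial.IsRoot _ _
    rw [Polynomial.IsRoot.def, Polynomial.eval_map]
    exact all j
  · refine Set.infinite_range_of_injective ?_
    intro i j hij
    have h1 := hz hij
    have h2 : ((i : ℤ) - j) * (k₁ - k₀) = 0 := by
      have : m + (i : ℤ) * (k₁ - k₀) = m + (j : ℤ) * (k₁ - k₀) := h1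
      linarith
    rcases mul_eq_zero.1 h2 with h3 | h3
    · exact_mod_cast (sub_eq_zero.1 h3)
    · omega

/-- the job AP-ALG -/
theorem t_ALG : S_ALG := alg

end Pool.Agent.Y730.AP
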